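import Pool.Agent.H3.SubProd

set_option autoImplicit false

namespace Pool.Agent.Results.MP_4a9f27_co.Corrected
open Finset Pool.Agent.H3.SubProd

section
variable {G : Type*} [Group G] [DecidableEq G]

theorem triv (S : Finset G) (h : S.card ^ 2 ≤ 4000 * (PP S).card) :
    ∃ (H : Subgroup G) (F : Finset G), (∀ y, y ∈ F ↔ y ∈ H) ∧ 8000 * F.card + (S \ F).card ^ 2 ≤ 8000 * (PP S).card := by
  refine ⟨⊥, {1}, by simp, ?_⟩
  have h1 : insert 1 (S \ {1}) ⊆ PP S := insert_subset (one_mem S) (sdiff_subset.trans (sub_PP S))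
  have h2 := card_le_card h1
  rw [card_insert_of_notMem (by simp)] at h2
  have h3 : (S \ {1}).card ^ 2 ≤ S.card ^ 2 := Nat.pow_le_pow_left (card_le_card sdiff_subset) 2
  rw [card_singleton]
  rcases Nat.eq_zero_or_pos (S \ {1}).card with h0 | h0
  · rw [h0] at h2 ⊢
    omega
  · omega

theorem stop_card {B F : Finset G} {b : G} (h : 3 * F.card < 4 * (F.filter (fun y => b * y ∈ B)).card) :
    3 * F.card < 4 * B.card := by
  have : (F.filter (fun y => b * y ∈ B)).card ≤ B.card := by
    refine card_le_card_of_injOn (fun y => b * y) (fun y hy => ?_) (fun x _ y _ h => mul_left_cancel h)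
    exact (mem_filter.1 (mem_coe.1 hy)).2
  omega

theorem main (S : Finset G) :
    ∃ (H : Subgroup G) (F : Finset G), (∀ y, y ∈ F ↔ y ∈ H) ∧ 8000 * F.card + (S \ F).card ^ 2 ≤ 8000 * (PP S).card := by
  have p1 : 1 ≤ (PP S).card := card_pos.2 ⟨1, one_mem S⟩
  obtain ⟨U, hU, u1, u2, u3⟩ := proc S (S.card / 2) (by omega)
  have pU : (PP U).card ≤ (PP S).card := card_le_card (PP_mono hU)
  rcases u3 with u3 | ⟨F, hF, b, hb, hs⟩
  · apply triv
    have : S.card ^ 2 ≤ (2 * U.card + 1) ^ 2 := Nat.pow_le_pow_left (by omega) 2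
    nlinarith [sq_nonneg (2 * (U.card : ℤ) - 1)]
  obtain ⟨V, hV, v1, v2, v3⟩ := proc (S \ U) ((S \ U).card / 2) (by omega)
  have hVS : V ⊆ S := hV.trans sdiff_subset
  have pV : (PP V).card ≤ (PP S).card := card_le_card (PP_mono hVS)
  have cT : (S \ U).card = S.card - U.card := card_sdiff_of_subset hU
  have dUV : Disjoint U V := disjoint_left.2 fun x hx hy => (mem_sdiff.1 (hV hy)).2 hx
  rcases v3 with v3 | ⟨F', hF', b', hb', hs'⟩
  · apply triv
    have : S.card ^ 2 ≤ (4 * V.card + 2) ^ 2 := Nat.pow_le_pow_left (by omega) 2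
    nlinarith [sq_nonneg (2 * (V.card : ℤ) - 1)]
  have q1 := stop_card hs
  have q2 := stop_card hs'
  have le : Subgroup.closure (((S \ U) \ V : Finset G) : Set G) ≤ Subgroup.closure ((S \ U : Finset G) : Set G) :=
    Subgroup.closure_mono (coe_subset.2 sdiff_subset)
  generalize hK : Subgroup.closure ((S \ U : Finset G) : Set G) = K at *
  generalize hK' : Subgroup.closure (((S \ U) \ V : Finset G) : Set G) = K' at *
  have mK : ∀ x ∈ S \ U, x ∈ K := fun x hx => hK ▸ Subgroup.subset_closure hx
  have mK' : ∀ x ∈ (S \ U) \ V, x ∈ K' := fun x hx => hK' ▸ Subgroup.subset_closure hx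
  by_cases e : K ≤ K'
  · have eF : F' = F := by
      ext y
      rw [hF, hF']
      exact ⟨fun h => le h, fun h => e h⟩
    subst eF
    refine ⟨K, F', hF, ?_⟩
    have VK : ∀ a ∈ PP V, a ∈ K := fun a ha => PP_sub (fun x hx => mK x (hV hx)) ha
    have full : F'.image (fun y => b * y) ⊆ PP S := by
      intro g hg
      obtain ⟨k, hk, rfl⟩ := mem_image.1 hg
      have hk' := (hF k).1 hk
      have s1 : (PP V).image (fun c => k * c⁻¹) ⊆ F' := by
        intro a ha
        obtain ⟨c, hc, rfl⟩ := mem_image.1 ha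
        exact (hF _).2 (K.mul_mem hk' (K.inv_mem (VK c hc)))
      have c1 : ((PP V).image (fun c => k * c⁻¹)).card = (PP V).card :=
        card_image_of_injective _ (fun x y h => inv_injective (mul_left_cancel h))
      have nd : ¬ Disjoint (F'.filter (fun y => b * y ∈ PP U)) ((PP V).image (fun c => k * c⁻¹)) := by
        intro hd
        have := card_le_card (union_subset (filter_subset (fun y => b * y ∈ PP U) F') s1)
        rw [card_union_of_disjoint hd] at this
        omega
      obtain ⟨y, y1, y2⟩ := not_disjoint_iff.1 nd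
      obtain ⟨c, hc, rfl⟩ := mem_image.1 y2
      have := mul_mem dUV hU hVS (mem_filter.1 y1).2 hc
      simpa [mul_assoc] using this
    have cf : (F'.image (fun y => b * y)).card = F'.card := card_image_of_injective _ (mul_right_injective b)
    have sU : S \ F' ⊆ U := by
      intro x hx
      rw [mem_sdiff] at hx
      by_contra h
      exact hx.2 ((hF x).2 (mK x (mem_sdiff.2 ⟨hx.1, h⟩)))
    rcases (S \ F').eq_empty_or_nonempty with h0 | ⟨s, hs0⟩
    · have := card_le_card full
      rw [h0]
      simp only [card_empty]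
      omega
    · have sK : s ∉ K := fun h => (mem_sdiff.1 hs0).2 ((hF s).2 h)
      have ex : ∃ a ∈ PP U, b⁻¹ * a ∉ K := by
        by_contra h
        push Not at h
        have h1 := h 1 (one_mem U)
        have h2 := h s (sub_PP U (sU hs0))
        apply sK
        have := K.mul_mem (K.inv_mem h1) h2
        simpa using this
      obtain ⟨a, ha, haK⟩ := ex
      have s2 : (PP V).image (fun c => a * c) ⊆ PP S := by
        intro g hg
        obtain ⟨c, hc, rfl⟩ := mem_image.1 hg
        exact mul_mem dUV hU hVS ha hc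
      have c2 : ((PP V).image (fun c => a * c)).card = (PP V).card := card_image_of_injective _ (mul_right_injective a)
      have dj : Disjoint (F'.image (fun y => b * y)) ((PP V).image (fun c => a * c)) := by
        rw [disjoint_left]
        intro g g1 g2
        obtain ⟨y, hy, rfl⟩ := mem_image.1 g1
        obtain ⟨c, hc, h⟩ := mem_image.1 g2
        apply haK
        have : b⁻¹ * a = y * c⁻¹ := by
          rw [inv_mul_eq_iff_eq_mul, ← mul_assoc, ← h, mul_inv_cancel_right]
        rw [this]
        exact K.mul_mem ((hF y).1 hy) (K.inv_mem (VK c hc))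
      have t := card_le_card (union_subset full s2)
      rw [card_union_of_disjoint dj] at t
      have : (S \ F').card ^ 2 ≤ U.card ^ 2 := Nat.pow_le_pow_left (card_le_card sU) 2
      omega
  · refine ⟨K', F', hF', ?_⟩
    obtain ⟨z, zK, zK'⟩ := SetLike.not_le_iff_exists.1 e
    have two : 2 * F'.card ≤ F.card := by
      have s1 : F' ⊆ F := fun y hy => (hF y).2 (le ((hF' y).1 hy))
      have s2 : F'.image (fun y => z * y) ⊆ F := by
        intro g hg
        obtain ⟨y, hy, rfl⟩ := mem_image.1 hg
        exact (hF _).2 (K.mul_mem zK (le ((hF' y).1 hy)))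
      have dj : Disjoint F' (F'.image (fun y => z * y)) := by
        rw [disjoint_left]
        intro g g1 g2
        obtain ⟨y, hy, rfl⟩ := mem_image.1 g2
        apply zK'
        have := K'.mul_mem ((hF' _).1 g1) (K'.inv_mem ((hF' _).1 hy))
        simpa using this
      have t := card_le_card (union_subset s1 s2)
      rw [card_union_of_disjoint dj, card_image_of_injective _ (mul_right_injective z)] at t
      omega
    have sU : S \ F' ⊆ U ∪ V := by
      intro x hx
      rw [mem_sdiff] at hx
      by_contra h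
      rw [mem_union, not_or] at h
      exact hx.2 ((hF' x).2 (mK' x (mem_sdiff.2 ⟨mem_sdiff.2 ⟨hx.1, h.1⟩, h.2⟩)))
    have t1 : (S \ F').card ^ 2 ≤ (U.card + V.card) ^ 2 :=
      Nat.pow_le_pow_left ((card_le_card sU).trans (card_union_le _ _)) 2
    have t2 : (U.card + V.card) ^ 2 ≤ 2 * U.card ^ 2 + 2 * V.card ^ 2 := by
      nlinarith [sq_nonneg ((U.card : ℤ) - V.card)]
    omega
end

theorem result :
    ∀ (G : Type) [Group G] (S : Finset G),
      ∃ H : Subgroup G, (H : Set G).Finite ∧
        ((Set.ncard {g : G | ∃ l : List G, l.Nodup ∧ (∀ x ∈ l, x ∈ S) ∧ l.prod = g} : ℕ) : ℝ)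
          ≥ (Nat.card H : ℝ) + (1 / 8000) * ((Set.ncard ((S : Set G) \ (H : Set G)) : ℕ) : ℝ) ^ 2 := by
  classical
  intro G _ S
  obtain ⟨H, F, hF, h⟩ := main S
  have e : (H : Set G) = F := by
    ext y
    simp [hF]
  refine ⟨H, e ▸ F.finite_toSet, ?_⟩
  have e1 : Set.ncard {g : G | ∃ l : List G, l.Nodup ∧ (∀ x ∈ l, x ∈ S) ∧ l.prod = g} = (PP S).card :=
    Set.ncard_eq_toFinset_card _ (fin S)
  have e2 : Nat.card H = F.card := by
    rw [← Set.ncard_coe_finset, ← e]
    rfl
  have e3 : Set.ncard ((S : Set G) \ (H : Set G)) = (S \ F).card := by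
    rw [e, ← coe_sdiff, Set.ncard_coe_finset]
  rw [e1, e2, e3]
  have : (8000 * F.card + (S \ F).card ^ 2 : ℝ) ≤ 8000 * (PP S).card := by exact_mod_cast h
  linarith

end Pool.Agent.Results.MP_4a9f27_co.Corrected
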